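import Pool.Agent.Lib.MP_d55432_al.G2.Iface

/-!
# G2, module RD: regular elements are determined by their invariants
-/

namespace Pool.Agent.Lib.MP_d55432_al.G2.H97

open Matrix LieAlgebra Polynomial

attribute [local instance 100] LieRing.ofAssociativeRing

variable {K : Type*} [Field K]

theorem Cj.symm {X Y : M7 K} (H : Cj X Y) : Cj Y X := by
  obtain ⟨g, h, hg, rfl⟩ := H
  refine ⟨h, g, hg.symm, ?_⟩
  calc X = (h * g) * X * (h * g) := by rw [hg.2.1, Matrix.one_mul, Matrix.mul_one]
    _ = h * (g * X * h) * g := by simp only [Matrix.mul_assoc]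

theorem Cj.trans {X Y Z : M7 K} (H : Cj X Y) (H' : Cj Y Z) : Cj X Z := by
  obtain ⟨g, h, hg, rfl⟩ := H
  obtain ⟨g', h', hg', rfl⟩ := H'
  exact ⟨g' * g, h * h', hg'.mul hg, by simp only [Matrix.mul_assoc]⟩

/-- A matrix killed by a product of distinct linear factors is diagonalisable. -/
theorem isDiag_of_prod [IsAlgClosed K] {ι : Type*} [Fintype ι] (X : M7 K) (f : ι → K)
    (hf : Function.Injective f) (h : Polynomial.aeval X (∏ i, (Polynomial.X - C (f i))) = 0) :
    IsDiag X := by
  have hsq : Squarefree (∏ i, (Polynomial.X - C (f i)) : K[X]) :=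
    (Polynomial.separable_prod_X_sub_C_iff.2 hf).squarefree
  have ha : Polynomial.aeval (Matrix.toLin' X) (∏ i, (Polynomial.X - C (f i)) : K[X]) = 0 := by
    have e : Matrix.toLin' X = Matrix.toLinAlgEquiv' X := rfl
    rw [e]
    have := Polynomial.aeval_algHom_apply (Matrix.toLinAlgEquiv' : M7 K ≃ₐ[K] _).toAlgHom X
      (∏ i, (Polynomial.X - C (f i)) : K[X])
    change Polynomial.aeval ((Matrix.toLinAlgEquiv' : M7 K ≃ₐ[K] _).toAlgHom X) _ = 0
    rw [this, h, map_zero]
  have hs : Module.End.IsSemisimple (Matrix.toLin' X) :=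
    Module.End.isSemisimple_of_squarefree_aeval_eq_zero hsq ha
  rw [IsDiag, ← Module.End.iSup_maxGenEigenspace_eq_top (Matrix.toLin' X)]
  congr 1
  funext μ
  exact (hs.isFinitelySemisimple.maxGenEigenspace_eq_eigenspace μ).symm

/-- RD. -/
theorem rd (K : Type*) [Field K] [IsAlgClosed K] [CharZero K] (hD : DIAG_S K) (hI : INV_S K)
    (hW : WEYL_S K) (hC : CH_S K) : RD_S K := by
  have key : ∀ X ∈ g2 K, IsDiag X → ∀ l m : K, s2 X = l ^ 2 + m ^ 2 + (l + m) ^ 2 →
      s6 X = (l * m * (l + m)) ^ 2 → Cj (TT l m) X := by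
    intro X hX hd l m h2 h6
    obtain ⟨l', m', hc⟩ := hD X hX hd
    obtain ⟨e2, e6⟩ := hI.1 _ _ hc
    obtain ⟨t2, t6⟩ := hI.2.2.1 l' m'
    refine Cj.trans (hW l m l' m' ?_ ?_) hc
    · rw [← h2, e2, t2]
    · rw [← h6, e6, t6]
  refine ⟨?_, ?_, ?_, ?_, ?_⟩
  · intro X hX Y hY hdX hdY h2 h6
    obtain ⟨l, m, hc⟩ := hD X hX hdX
    obtain ⟨e2, e6⟩ := hI.1 _ _ hc
    obtain ⟨t2, t6⟩ := hI.2.2.1 l m
    refine Cj.trans (Cj.symm hc) (key Y hY hdY l m ?_ ?_)
    · rw [← h2, e2, t2]
    · rw [← h6, e6, t6]
  · intro X hX l m hr h2 h6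
    refine key X hX ?_ l m h2 h6
    have hr' : l ≠ 0 ∧ m ≠ 0 ∧ l + m ≠ 0 ∧ l - m ≠ 0 ∧ 2 * l + m ≠ 0 ∧ l + 2 * m ≠ 0 := by
      rw [Reg] at hr
      refine ⟨?_, ?_, ?_, ?_, ?_, ?_⟩ <;> intro h0 <;> exact hr (by simp [h0])
    obtain ⟨r1, r2, r3, r4, r5, r6⟩ := hr'
    have t0 : (2 : K) ≠ 0 := two_ne_zero
    apply isDiag_of_prod X ![0, l, m, -l - m, -l, -m, l + m]
    · intro i j hij
      fin_cases i <;> fin_cases j <;> simp at hij ⊢ <;> exfalso
      all_goals first
        | exact r1 (by linear_combination hij) | exact r1 (by linear_combination -hij)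
        | exact r2 (by linear_combination hij) | exact r2 (by linear_combination -hij)
        | exact r3 (by linear_combination hij) | exact r3 (by linear_combination -hij)
        | exact r4 (by linear_combination hij) | exact r4 (by linear_combination -hij)
        | exact r5 (by linear_combination hij) | exact r5 (by linear_combination -hij)
        | exact r6 (by linear_combination hij) | exact r6 (by linear_combination -hij)
        | exact r1 (by linear_combination hij / 2) | exact r1 (by linear_combination -hij / 2)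
        | exact r2 (by linear_combination hij / 2) | exact r2 (by linear_combination -hij / 2)
        | exact r3 (by linear_combination hij / 2) | exact r3 (by linear_combination -hij / 2)
    · have e : (∏ i : Fin 7, (Polynomial.X - C ((![0, l, m, -l - m, -l, -m, l + m] : Fin 7 → K) i))
          : K[X]) = Polynomial.X ^ 7 - C (s2 X) * Polynomial.X ^ 5 + C (s2 X ^ 2 / 4) *
            Polynomial.X ^ 3 - C (s6 X) * Polynomial.X := by
        have e4 : s2 X ^ 2 / 4 = (l ^ 2 + l * m + m ^ 2) ^ 2 := by
          rw [h2]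
          ring
        rw [e4, h2, h6]
        simp only [Fin.prod_univ_succ, Fin.prod_univ_zero, Matrix.cons_val_zero,
          Matrix.cons_val_succ, map_add, map_sub, map_neg, map_mul, map_pow, map_zero, mul_one]
        ring
      rw [e]
      simp only [map_add, map_sub, map_mul, map_pow, aeval_X, aeval_C]
      have := hC X hX
      rw [← this]
      simp only [Algebra.algebraMap_eq_smul_one, smul_mul_assoc, one_mul]
  · intro X hX hs h3
    obtain ⟨c, hc⟩ := IsAlgClosed.exists_pow_nat_eq (s2 X / 2) (show 0 < 2 by norm_num)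
    have hc0 : c ≠ 0 := by
      rintro rfl
      apply hs
      rw [zero_pow two_ne_zero] at hc
      have := (div_eq_zero_iff.1 hc.symm)
      simpa using this
    apply isDiag_of_prod X ![0, c, -c]
    · intro i j hij
      fin_cases i <;> fin_cases j <;> simp at hij ⊢ <;> exfalso
      all_goals first
        | exact hc0 (by linear_combination hij) | exact hc0 (by linear_combination -hij)
        | exact hc0 (by linear_combination hij / 2) | exact hc0 (by linear_combination -hij / 2)
    · have e : (∏ i : Fin 3, (Polynomial.X - C ((![0, c, -c] : Fin 3 → K) i))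
          : K[X]) = Polynomial.X ^ 3 - C (s2 X / 2) * Polynomial.X := by
        rw [← hc]
        simp only [Fin.prod_univ_succ, Fin.prod_univ_zero, Matrix.cons_val_zero,
          Matrix.cons_val_succ, map_neg, map_pow, map_zero, mul_one]
        ring
      rw [e]
      simp only [map_sub, map_mul, map_pow, aeval_X, aeval_C, h3]
      rw [Algebra.algebraMap_eq_smul_one, smul_mul_assoc, one_mul, sub_self]
  · intro X hX hs h5
    obtain ⟨c, hc⟩ := IsAlgClosed.exists_pow_nat_eq (s2 X / 6) (show 0 < 2 by norm_num)
    have hc0 : c ≠ 0 := by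
      rintro rfl
      apply hs
      rw [zero_pow two_ne_zero] at hc
      have := (div_eq_zero_iff.1 hc.symm)
      simpa using this
    apply isDiag_of_prod X ![0, c, -c, 2 * c, -(2 * c)]
    · intro i j hij
      fin_cases i <;> fin_cases j <;> simp at hij ⊢ <;> exfalso
      all_goals first
        | exact hc0 (by linear_combination hij) | exact hc0 (by linear_combination -hij)
        | exact hc0 (by linear_combination hij / 2) | exact hc0 (by linear_combination -hij / 2)
        | exact hc0 (by linear_combination hij / 3) | exact hc0 (by linear_combination -hij / 3)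
        | exact hc0 (by linear_combination hij / 4) | exact hc0 (by linear_combination -hij / 4)
    · have e : (∏ i : Fin 5, (Polynomial.X - C ((![0, c, -c, 2 * c, -(2 * c)] : Fin 5 → K) i))
          : K[X]) = Polynomial.X ^ 5 - C (5 * s2 X / 6) * Polynomial.X ^ 3 + C (s2 X ^ 2 / 9) *
            Polynomial.X := by
        have e1 : 5 * s2 X / 6 = 5 * c ^ 2 := by rw [hc]; ring
        have e2 : s2 X ^ 2 / 9 = 4 * c ^ 2 * c ^ 2 := by rw [hc]; ring
        rw [e1, e2]
        simp only [Fin.prod_univ_succ, Fin.prod_univ_zero, Matrix.cons_val_zero,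
          Matrix.cons_val_succ, map_neg, map_pow, map_zero, mul_one, map_mul]
        have e3 : (C (2 : K) : K[X]) = 2 := rfl
        have e4 : (C (4 : K) : K[X]) = 4 := rfl
        have e5 : (C (5 : K) : K[X]) = 5 := rfl
        rw [e3, e4, e5]
        ring
      rw [e]
      simp only [map_add, map_sub, map_mul, map_pow, aeval_X, aeval_C]
      rw [← h5]
      simp only [Algebra.algebraMap_eq_smul_one, smul_mul_assoc, one_mul]
  · intro X hX
    constructor
    · intro h7
      have hn : IsNilpotent X := ⟨7, h7⟩
      have t2 : (X * X).trace = 0 := by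
        have : IsNilpotent (X * X) := by
          rw [← pow_two]
          exact hn.pow_of_pos two_ne_zero
        exact (Matrix.isNilpotent_trace_of_isNilpotent this).eq_zero
      have t6 : (X ^ 6).trace = 0 :=
        (Matrix.isNilpotent_trace_of_isNilpotent (hn.pow_of_pos (by norm_num))).eq_zero
      have h2 : s2 X = 0 := by rw [s2, t2, zero_div]
      refine ⟨h2, ?_⟩
      rw [s6, h2, t6]
      simp
    · rintro ⟨h2, h6⟩
      have := hC X hX
      rw [h2, h6] at this
      simpa using this

end Pool.Agent.Lib.MP_d55432_al.G2.H97
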